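import Pool.Agent.Run7.h717.SA.Iface

set_option autoImplicit false

namespace Pool.Agent.Run7.h633.SA

open MeasureTheory ProbabilityTheory Filter Topology
open scoped ENNReal
open Pool.Agent.Run7.h717.SA

theorem ang_nonneg {ι F : Type} [Fintype ι] [NormedAddCommGroup F] [InnerProductSpace ℝ F]
    [FiniteDimensional ℝ F] [MeasurableSpace F] (x : ι → F) : 0 ≤ ang x := by
  unfold ang; exact measureReal_nonneg

theorem ang_le_one {d n : ℕ} (x : Fin n → E d) : ang x ≤ 1 := by
  unfold ang; exact measureReal_le_one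

instance (n d : ℕ) : IsProbabilityMeasure (GG n d) := by
  unfold GG; infer_instance

/-- the power of the angle -/
noncomputable def FN (m N : ℕ) (x : Fin (m + 1) → E (m + 1)) : ℝ := (2 * ang x) ^ N

theorem FN_meas (hLI : S_LI) (hMSR : S_MSR) (m N : ℕ) :
    AEStronglyMeasurable (FN m N) (GG (m + 1) (m + 1)) := by
  obtain ⟨a, ha, hax⟩ := hMSR (m + 1)
  have h1 : AEStronglyMeasurable (fun x => (2 * a x) ^ N) (GG (m + 1) (m + 1)) :=
    ((ha.const_mul 2).pow_const N).aestronglyMeasurable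
  refine h1.congr ?_
  filter_upwards [hLI (m + 1) (m + 1) le_rfl] with x hx
  unfold FN
  rw [hax x hx]

theorem FN_int (hLI : S_LI) (hMSR : S_MSR) (m N : ℕ) :
    Integrable (FN m N) (GG (m + 1) (m + 1)) := by
  refine Integrable.of_bound (FN_meas hLI hMSR m N) (2 ^ N) (Eventually.of_forall fun x => ?_)
  unfold FN
  have h0 := ang_nonneg x
  have h1 := ang_le_one x
  rw [Real.norm_of_nonneg (by positivity)]
  exact pow_le_pow_left₀ (by positivity) (by linarith) N

/-- the splitting of the last coordinate -/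
noncomputable def ee (m : ℕ) : (Fin (m + 1) → E (m + 1)) ≃ᵐ E (m + 1) × (Fin m → E (m + 1)) :=
  MeasurableEquiv.piFinSuccAbove (fun _ => E (m + 1)) (Fin.last m)

theorem ee_symm (m : ℕ) (p : E (m + 1) × (Fin m → E (m + 1))) :
    (ee m).symm p = Fin.snoc p.2 p.1 := by
  show (Fin.last m).insertNth (α := fun _ => E (m + 1)) p.1 p.2 = _
  exact Fin.insertNth_last' _ _

theorem mp_gen {X : Type} [MeasurableSpace X] (γ : Measure X) [SigmaFinite γ] (m : ℕ) :
    MeasurePreserving (MeasurableEquiv.piFinSuccAbove (fun _ : Fin (m + 1) => X)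
      (Fin.last m)).symm (γ.prod (Measure.pi fun _ : Fin m => γ))
      (Measure.pi fun _ : Fin (m + 1) => γ) :=
  MeasurePreserving.symm _ (measurePreserving_piFinSuccAbove (fun _ => γ) (Fin.last m))

theorem ee_mp (m : ℕ) : MeasurePreserving (ee m).symm
    ((stdGaussian (E (m + 1))).prod (GG m (m + 1))) (GG (m + 1) (m + 1)) :=
  mp_gen (stdGaussian (E (m + 1))) m

theorem prod_int (hLI : S_LI) (hMSR : S_MSR) (m N : ℕ) :
    Integrable (fun p : E (m + 1) × (Fin m → E (m + 1)) =>
      (2 * ang (Fin.snoc p.2 p.1 : Fin (m + 1) → E (m + 1))) ^ N)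
      ((stdGaussian (E (m + 1))).prod (GG m (m + 1))) := by
  have h1 := ((ee_mp m).integrable_comp_emb (ee m).symm.measurableEmbedding).2
    (FN_int hLI hMSR m N)
  refine h1.congr (Eventually.of_forall fun p => ?_)
  show FN m N ((ee m).symm p) = _
  rw [ee_symm]
  rfl

theorem KK_int (hLI : S_LI) (hMSR : S_MSR) (m N : ℕ) :
    Integrable (fun x : Fin m → E (m + 1) => KK N x) (GG m (m + 1)) := by
  have h1 := (prod_int hLI hMSR m N).integral_prod_right
  exact h1.const_mul (N : ℝ)

theorem int_eq (hLI : S_LI) (hMSR : S_MSR) (m N : ℕ) :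
    (N : ℝ) * 2 ^ N * mm (m + 1) N = ∫ x, KK N x ∂(GG m (m + 1)) := by
  have h1 : ∫ x, FN m N x ∂(GG (m + 1) (m + 1)) = 2 ^ N * mm (m + 1) N := by
    unfold mm FN
    rw [← integral_const_mul]
    apply integral_congr_ae
    exact Eventually.of_forall fun x => mul_pow _ _ _
  have h2 : ∫ p, FN m N ((ee m).symm p) ∂((stdGaussian (E (m + 1))).prod (GG m (m + 1)))
      = ∫ x, FN m N x ∂(GG (m + 1) (m + 1)) := (ee_mp m).integral_comp' (FN m N)
  have h3 : ∫ p, FN m N ((ee m).symm p) ∂((stdGaussian (E (m + 1))).prod (GG m (m + 1)))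
      = ∫ p : E (m + 1) × (Fin m → E (m + 1)),
        (2 * ang (Fin.snoc p.2 p.1 : Fin (m + 1) → E (m + 1))) ^ N
        ∂((stdGaussian (E (m + 1))).prod (GG m (m + 1))) := by
    apply integral_congr_ae
    refine Eventually.of_forall fun p => ?_
    show FN m N ((ee m).symm p) = _
    rw [ee_symm]
    rfl
  have h4 := integral_prod_symm _ (prod_int hLI hMSR m N)
  have h5 : ∫ x, KK N x ∂(GG m (m + 1)) = (N : ℝ) * ∫ x : Fin m → E (m + 1),
      ∫ v, (2 * ang (Fin.snoc x v : Fin (m + 1) → E (m + 1))) ^ N ∂(stdGaussian (E (m + 1)))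
      ∂(GG m (m + 1)) := by
    unfold KK
    rw [integral_const_mul]
  rw [h5, ← h4, ← h3, h2, h1]
  ring

theorem t_LIM (hINN : S_INN) (hLI : S_LI) (hMSR : S_MSR) : S_LIM := by
  intro m hm
  obtain ⟨C, hC⟩ := hINN m hm
  have hli := hLI m (m + 1) (Nat.le_succ m)
  classical
  set l : (Fin m → E (m + 1)) → ℝ := fun x =>
    if h : LinearIndependent ℝ x then (hC x h).2.choose else 1 with hl
  have hlpos : ∀ x, 0 < l x := by
    intro x
    by_cases h : LinearIndependent ℝ x
    · rw [hl]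
      simp only [h, dif_pos]
      exact (hC x h).2.choose_spec.1
    · rw [hl]
      simp only [h]
      norm_num
  have hlt : ∀ᵐ x ∂(GG m (m + 1)), Tendsto (fun N => KK N x) atTop (𝓝 (l x)) := by
    filter_upwards [hli] with x hx
    rw [hl]
    simp only [hx, dif_pos]
    exact (hC x hx).2.choose_spec.2
  have hKK0 : ∀ (N : ℕ) (x : Fin m → E (m + 1)), 0 ≤ KK N x := by
    intro N x
    unfold KK
    refine mul_nonneg (Nat.cast_nonneg N) (integral_nonneg fun v => ?_)
    have h0 := ang_nonneg (Fin.snoc x v : Fin (m + 1) → E (m + 1))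
    positivity
  have hbd : ∀ N : ℕ, ∀ᵐ x ∂(GG m (m + 1)), ‖KK N x‖ ≤ C := by
    intro N
    filter_upwards [hli] with x hx
    rw [Real.norm_of_nonneg (hKK0 N x)]
    exact (hC x hx).1 N
  have hT : Tendsto (fun N : ℕ => ∫ x, KK N x ∂(GG m (m + 1))) atTop
      (𝓝 (∫ x, l x ∂(GG m (m + 1)))) :=
    tendsto_integral_of_dominated_convergence (fun _ => C)
      (fun N => (KK_int hLI hMSR m N).aestronglyMeasurable) (integrable_const C) hbd hlt
  have hlm : AEStronglyMeasurable l (GG m (m + 1)) :=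
    aestronglyMeasurable_of_tendsto_ae atTop
      (fun N => (KK_int hLI hMSR m N).aestronglyMeasurable) hlt
  have hlb : ∀ᵐ x ∂(GG m (m + 1)), ‖l x‖ ≤ C := by
    filter_upwards [hli, hlt] with x hx hxt
    rw [Real.norm_of_nonneg (hlpos x).le]
    exact le_of_tendsto hxt (Eventually.of_forall fun N => (hC x hx).1 N)
  have hlint : Integrable l (GG m (m + 1)) := Integrable.of_bound hlm C hlb
  refine ⟨∫ x, l x ∂(GG m (m + 1)), ?_, ?_⟩
  · refine lt_of_le_of_ne (integral_nonneg fun x => (hlpos x).le) (fun h => ?_)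
    have h1 := (integral_eq_zero_iff_of_nonneg (fun x => (hlpos x).le) hlint).1 h.symm
    obtain ⟨x, hx⟩ := h1.exists
    exact (hlpos x).ne' hx
  · refine hT.congr fun N => ?_
    exact (int_eq hLI hMSR m N).symm

end Pool.Agent.Run7.h633.SA
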